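import Pool.Agent.helper95.FI.SpecV
import Pool.Agent.helper74.TG.SW

set_option autoImplicit false

open Finset

noncomputable section

namespace Pool.Agent.FI

lemma THS_transfer (q : ℕ) (c : ℤ) (u b : ℕ) (hb : (b : ℤ) = c % (q : ℤ)) :
    ∑ l ∈ Ioc (0 : ℤ) u with (q : ℤ) ∣ l - c, th l = ∑ n ∈ Ioc 0 u with n ≡ b [MOD q], th (n : ℤ) := by
  have key : ∀ l : ℤ, (q : ℤ) ∣ l - c ↔ (q : ℤ) ∣ (b : ℤ) - l := by
    intro l
    have h1 : (q : ℤ) ∣ c - (b : ℤ) := by
      rw [hb]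
      exact Int.dvd_self_sub_emod
    constructor
    · intro h
      have := dvd_add h h1
      have h2 : l - c + (c - (b : ℤ)) = -((b : ℤ) - l) := by ring
      rw [h2] at this
      exact (dvd_neg).1 this
    · intro h
      have := dvd_add h h1
      have h2 : (b : ℤ) - l + (c - (b : ℤ)) = -(l - c) := by ring
      rw [h2] at this
      exact (dvd_neg).1 this
  refine Finset.sum_nbij' Int.toNat (fun n : ℕ => (n : ℤ)) ?_ ?_ ?_ ?_ ?_
  · intro l hl
    rw [Finset.mem_filter, Finset.mem_Ioc] at hl ⊢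
    obtain ⟨⟨h1, h2⟩, h3⟩ := hl
    refine ⟨⟨by omega, by omega⟩, ?_⟩
    rw [Nat.modEq_iff_dvd, Int.toNat_of_nonneg h1.le]
    exact (key l).1 h3
  · intro n hn
    rw [Finset.mem_filter, Finset.mem_Ioc] at hn ⊢
    obtain ⟨⟨h1, h2⟩, h3⟩ := hn
    refine ⟨⟨by omega, by omega⟩, ?_⟩
    rw [Nat.modEq_iff_dvd] at h3
    exact (key n).2 h3
  · intro l hl
    rw [Finset.mem_filter, Finset.mem_Ioc] at hl
    exact Int.toNat_of_nonneg hl.1.1.le
  · intro n _
    exact Int.toNat_natCast n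
  · intro l hl
    rw [Finset.mem_filter, Finset.mem_Ioc] at hl
    rw [Int.toNat_of_nonneg hl.1.1.le]

lemma THS_th (n : ℕ) : th (n : ℤ) = if n.Prime then ArithmeticFunction.vonMangoldt n else 0 := by
  unfold th
  rw [Int.toNat_natCast, Int.cast_natCast]
  split_ifs with h
  · rw [ArithmeticFunction.vonMangoldt_apply_prime h]
  · rfl

lemma THS_diff (q b u x : ℕ) (hx : 1 ≤ x) (hu : u ≤ 2 * x) :
    |∑ n ∈ Ioc 0 u with n ≡ b [MOD q], ArithmeticFunction.vonMangoldt n -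
      ∑ n ∈ Ioc 0 u with n ≡ b [MOD q], th (n : ℤ)| ≤ 2 * Real.sqrt (2 * x) * Real.log (2 * x) := by
  have h1 : ∑ n ∈ Ioc 0 u with n ≡ b [MOD q], ArithmeticFunction.vonMangoldt n -
      ∑ n ∈ Ioc 0 u with n ≡ b [MOD q], th (n : ℤ) =
      ∑ n ∈ Ioc 0 u with n ≡ b [MOD q], (if n.Prime then 0 else ArithmeticFunction.vonMangoldt n) := by
    rw [← Finset.sum_sub_distrib]
    refine Finset.sum_congr rfl fun n _ => ?_
    rw [THS_th]
    split_ifs <;> simp
  have hnn : ∀ n : ℕ, (0 : ℝ) ≤ if n.Prime then 0 else ArithmeticFunction.vonMangoldt n := by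
    intro n
    split_ifs
    · exact le_refl _
    · exact ArithmeticFunction.vonMangoldt_nonneg
  have hx' : (1 : ℝ) ≤ 2 * (x : ℝ) := by
    have : (1 : ℝ) ≤ x := by exact_mod_cast hx
    linarith
  rw [h1, abs_of_nonneg (Finset.sum_nonneg fun n _ => hnn n)]
  refine le_trans ?_ (Chebyshev.psi_sub_theta_le hx')
  rw [Chebyshev.psi_sub_theta_eq_sum_not_prime]
  have hfl : ⌊2 * (x : ℝ)⌋₊ = 2 * x := by
    have : (2 * (x : ℝ)) = ((2 * x : ℕ) : ℝ) := by push_cast; ring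
    rw [this, Nat.floor_natCast]
  rw [hfl, Finset.sum_filter (fun n : ℕ => ¬ n.Prime)]
  have h2 : ∀ n : ℕ, (if ¬ n.Prime then ArithmeticFunction.vonMangoldt n else 0 : ℝ) =
      if n.Prime then 0 else ArithmeticFunction.vonMangoldt n := by
    intro n
    by_cases h : n.Prime <;> simp [h]
  rw [Finset.sum_congr rfl fun n _ => h2 n]
  refine Finset.sum_le_sum_of_subset_of_nonneg ?_ fun n _ _ => hnn n
  intro n hn
  rw [Finset.mem_filter, Finset.mem_Ioc] at hn
  rw [Finset.mem_Ioc]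
  omega

lemma THS_num (A : ℕ) (C : ℝ) (hC : 0 < C) : ∀ᶠ x : ℕ in Filter.atTop,
    0 ≤ Real.log x ∧ Real.log x ≤ Real.log (2 * x) ∧
    C * (2 * x) / Real.log (2 * x) ^ (A + 1) + 2 * Real.sqrt (2 * x) * Real.log (2 * x) ≤
      x / Real.log x ^ A := by
  have e1 : ∀ᶠ x : ℕ in Filter.atTop, max 1 (4 * C) ≤ Real.log (x : ℝ) :=
    (Real.tendsto_log_atTop.comp tendsto_natCast_atTop_atTop).eventually_ge_atTop _
  have e2 : ∀ᶠ x : ℕ in Filter.atTop, ‖Real.log (Real.sqrt (x : ℝ)) ^ (A + 1)‖ ≤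
      (1 / (16 * 2 ^ (A + 1))) * ‖Real.sqrt (x : ℝ)‖ := by
    have h := (Real.isLittleO_pow_log_id_atTop (n := A + 1)).bound
      (show (0 : ℝ) < 1 / (16 * 2 ^ (A + 1)) by positivity)
    exact (Real.tendsto_sqrt_atTop.comp tendsto_natCast_atTop_atTop).eventually h
  filter_upwards [e1, e2, Filter.eventually_ge_atTop 1] with x h1 h2 h3
  have hx : (1 : ℝ) ≤ x := by exact_mod_cast h3
  have hx0 : (0 : ℝ) < x := by linarith
  set L := Real.log (x : ℝ) with hL
  have hL1 : 1 ≤ L := le_trans (le_max_left _ _) h1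
  have hLC : 4 * C ≤ L := le_trans (le_max_right _ _) h1
  have hL0 : 0 < L := by linarith
  have hlog : Real.log (2 * (x : ℝ)) = Real.log 2 + L := by
    rw [Real.log_mul (by norm_num) hx0.ne']
  have hlog2 : 0 ≤ Real.log 2 := Real.log_nonneg (by norm_num)
  have hlog2' : Real.log 2 ≤ 1 := by
    have := Real.log_two_lt_d9
    linarith
  have hge : L ≤ Real.log (2 * (x : ℝ)) := by rw [hlog]; linarith
  have hle : Real.log (2 * (x : ℝ)) ≤ 2 * L := by rw [hlog]; linarith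
  refine ⟨hL0.le, hge, ?_⟩
  -- first part
  have hA : C * (2 * x) / Real.log (2 * x) ^ (A + 1) ≤ x / (2 * L ^ A) := by
    calc C * (2 * x) / Real.log (2 * x) ^ (A + 1) ≤ C * (2 * x) / L ^ (A + 1) := by
          apply div_le_div_of_nonneg_left (by positivity) (by positivity)
          exact pow_le_pow_left₀ hL0.le hge _
      _ ≤ x / (2 * L ^ A) := by
          rw [div_le_div_iff₀ (by positivity) (by positivity), pow_succ]
          have h5 : 4 * C * (x * L ^ A) ≤ L * (x * L ^ A) :=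
            mul_le_mul_of_nonneg_right hLC (by positivity)
          nlinarith [h5]
  -- second part
  have hs : 0 ≤ Real.sqrt (x : ℝ) := Real.sqrt_nonneg _
  have hss : Real.sqrt (x : ℝ) * Real.sqrt (x : ℝ) = x := Real.mul_self_sqrt hx0.le
  have hsq : Real.sqrt (2 * (x : ℝ)) ≤ 2 * Real.sqrt (x : ℝ) := by
    rw [Real.sqrt_le_left (by positivity)]
    nlinarith
  have hB1 : L ^ (A + 1) ≤ Real.sqrt (x : ℝ) / 16 := by
    rw [Real.log_sqrt hx0.le, ← hL, Real.norm_of_nonneg (by positivity), Real.norm_of_nonneg hs,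
      div_pow] at h2
    have h6 : (0 : ℝ) < 2 ^ (A + 1) := by positivity
    rw [div_le_iff₀ h6] at h2
    have h7 : 1 / (16 * (2 : ℝ) ^ (A + 1)) * Real.sqrt (x : ℝ) * 2 ^ (A + 1) = Real.sqrt (x : ℝ) / 16 := by
      field_simp
    rw [h7] at h2
    exact h2
  have hB : 2 * Real.sqrt (2 * x) * Real.log (2 * x) ≤ x / (2 * L ^ A) := by
    calc 2 * Real.sqrt (2 * x) * Real.log (2 * x) ≤ 2 * (2 * Real.sqrt (x : ℝ)) * (2 * L) := by
          apply mul_le_mul _ hle (by linarith) (by positivity)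
          linarith
      _ = 8 * Real.sqrt (x : ℝ) * L := by ring
      _ ≤ x / (2 * L ^ A) := by
          rw [le_div_iff₀ (by positivity)]
          calc 8 * Real.sqrt (x : ℝ) * L * (2 * L ^ A) = 16 * Real.sqrt (x : ℝ) * L ^ (A + 1) := by
                rw [pow_succ]; ring
            _ ≤ 16 * Real.sqrt (x : ℝ) * (Real.sqrt (x : ℝ) / 16) :=
                mul_le_mul_of_nonneg_left hB1 (by positivity)
            _ = Real.sqrt (x : ℝ) * Real.sqrt (x : ℝ) := by ring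
            _ = x := hss
  have hfin : (x : ℝ) / (2 * L ^ A) + x / (2 * L ^ A) = x / L ^ A := by
    field_simp
    norm_num
  linarith

theorem THS : THS_stmt := by
  intro A B
  obtain ⟨C, x₁, hC, hSW⟩ := Pool.Agent.helper74.TG.siegel_walfisz (A + 1) B
  have e1 : ∀ᶠ x : ℕ in Filter.atTop, x₁ ≤ (x : ℝ) := tendsto_natCast_atTop_atTop.eventually_ge_atTop _
  obtain ⟨x₀, hx₀⟩ := Filter.eventually_atTop.1
    ((e1.and (THS_num A C hC)).and (Filter.eventually_ge_atTop 1))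
  refine ⟨x₀, fun x hx q hq hqB c u hcq hu => ?_⟩
  obtain ⟨⟨h1, h2, h3, h4⟩, h5⟩ := hx₀ x hx
  have hq0 : (0 : ℤ) < q := by exact_mod_cast hq
  have hb : (((c % (q : ℤ)).toNat : ℕ) : ℤ) = c % (q : ℤ) :=
    Int.toNat_of_nonneg (Int.emod_nonneg c hq0.ne')
  set b := (c % (q : ℤ)).toNat with hbdef
  have hcop : Nat.Coprime b q := by
    rw [← Nat.isCoprime_iff_coprime, hb]
    rw [← Int.emod_add_mul_ediv c q] at hcq
    exact IsCoprime.add_mul_left_left_iff.1 hcq
  rw [THS_transfer q c u b hb]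
  have hx2 : (0 : ℝ) ≤ x := Nat.cast_nonneg _
  have hSW' := hSW (2 * x) (by linarith) q hq (hqB.trans (pow_le_pow_left₀ h2 h3 B)) b hcop u
    (by exact_mod_cast hu)
  have hd := THS_diff q b u x h5 hu
  have htri : |∑ n ∈ Ioc 0 u with n ≡ b [MOD q], th (n : ℤ) - u / (Nat.totient q : ℝ)| ≤
      |∑ n ∈ Ioc 0 u with n ≡ b [MOD q], ArithmeticFunction.vonMangoldt n - u / (Nat.totient q : ℝ)| +
      |∑ n ∈ Ioc 0 u with n ≡ b [MOD q], ArithmeticFunction.vonMangoldt n -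
        ∑ n ∈ Ioc 0 u with n ≡ b [MOD q], th (n : ℤ)| := by
    rw [abs_sub_comm (∑ n ∈ Ioc 0 u with n ≡ b [MOD q], ArithmeticFunction.vonMangoldt n)
      (∑ n ∈ Ioc 0 u with n ≡ b [MOD q], th (n : ℤ)), add_comm]
    have := abs_sub_le (∑ n ∈ Ioc 0 u with n ≡ b [MOD q], th (n : ℤ))
      (∑ n ∈ Ioc 0 u with n ≡ b [MOD q], ArithmeticFunction.vonMangoldt n) (u / (Nat.totient q : ℝ))
    exact this
  linarith

end Pool.Agent.FI

end
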